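import Pool.Agent.Q122.AscProofs
import Pool.Agent.Q122.RandomGraph

set_option autoImplicit false

namespace Pool.Agent.Results.MP_5f8894_co.AlmostAllThree

open Q122 Filter Topology

lemma exists_third {n : ℕ} (hn : 3 ≤ n) (u v : Fin n) : ∃ x, x ≠ u ∧ x ≠ v := by
  by_contra hcon
  push Not at hcon
  have h1 : (Finset.univ : Finset (Fin n)) ⊆ {u, v} := by
    intro x _
    rw [Finset.mem_insert, Finset.mem_singleton]
    by_cases h : x = u
    · exact Or.inl h
    · exact Or.inr (hcon x h)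
  have h2 := Finset.card_le_card h1
  rw [Finset.card_univ, Fintype.card_fin] at h2
  have h3 := Finset.card_le_two (a := u) (b := v)
  omega

lemma inj3 {V : Type} (a b c : V) (h1 : a ≠ b) (h2 : a ≠ c) (h3 : b ≠ c) :
    Function.Injective ![a, b, c] := by
  intro i j h
  fin_cases i <;> fin_cases j <;> simp_all

lemma exists_good {n : ℕ} (hn : 3 ≤ n) (G : SimpleGraph (Fin n)) (h : RG.ExtP 3 G) :
    ∃ z w, Asc.Good G z w := by
  have key : ∀ a b c : Fin n, a ≠ b → a ≠ c → b ≠ c → ∀ p q r : Bool,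
      ∃ x, x ≠ a ∧ x ≠ b ∧ x ≠ c ∧ (G.Adj x a ↔ p = true) ∧ (G.Adj x b ↔ q = true) ∧
        (G.Adj x c ↔ r = true) := by
    intro a b c h1 h2 h3 p q r
    obtain ⟨x, hx, hr⟩ := h ![a, b, c] (inj3 a b c h1 h2 h3) ![p, q, r]
    exact ⟨x, (hx 0).symm, (hx 1).symm, (hx 2).symm, hr 0, hr 1, hr 2⟩
  obtain ⟨u, hu1, -⟩ := exists_third hn ⟨0, by omega⟩ ⟨0, by omega⟩
  obtain ⟨v, hv1, hv2⟩ := exists_third hn ⟨0, by omega⟩ u
  obtain ⟨z, hz1, _, _, hz2, _, _⟩ := key ⟨0, by omega⟩ u v hu1.symm hv1.symm hv2.symm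
    false false false
  refine ⟨z, ⟨0, by omega⟩, hz1, by simpa using hz2, ?_, ?_, ?_⟩
  · intro a b hab _
    obtain ⟨c, hc1, hc2⟩ := exists_third hn a b
    obtain ⟨x, _, _, _, h1, h2, _⟩ := key a b c hab hc1.symm hc2.symm true true true
    exact ⟨x, (h1.2 rfl).symm, h2.2 rfl⟩
  · intro a ha1 ha2
    obtain ⟨x, h1, h2, _, h4, h5, h6⟩ := key z ⟨0, by omega⟩ a hz1 ha1.symm ha2.symm
      false false true
    exact ⟨x, h1, h2, by simpa using h4, by simpa using h5, h6.2 rfl⟩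
  · obtain ⟨a, ha1, ha2⟩ := exists_third hn z ⟨0, by omega⟩
    obtain ⟨x, h1, h2, _, h4, h5, _⟩ := key z ⟨0, by omega⟩ a hz1 ha1.symm ha2.symm
      false false true
    exact ⟨x, h1, h2, by simpa using h4, by simpa using h5⟩

/-- Positive answer to Q1 of MP_5f8894_co: almost every graph has 3-ASC index 3. -/
theorem result : Tendsto (fun n => graphProb n (fun G => ascIndex 3 G = 3)) atTop (𝓝 1) := by
  refine tendsto_graphProb 3 3 (fun n G => ascIndex 3 G = 3) ?_
  intro n hn G hG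
  obtain ⟨z, w, h⟩ := exists_good hn G hG
  exact Asc.ascIndex_eq_three h

end Pool.Agent.Results.MP_5f8894_co.AlmostAllThree
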